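import Pool.Agent.Q152.CC.Stm

set_option autoImplicit false

/-!
# Jobs KAP and PER (project CC of helper152)
-/

namespace Pool.Agent.Q214.CC

open Finset Pool.Agent.Y692.QS Pool.Agent.Q152.CC

theorem kn_one : kn 1 = fun _ => 1 := by
  funext α
  simp [kn]

theorem kn_prime {q : ℕ} (hq : q.Prime) (α : Ei) : kn q α = kp q α := by
  unfold kn
  rw [hq.primeFactors, prod_singleton, hq.factorization_self, pow_one]

theorem kap_prime {q : ℕ} (hq : q.Prime) : Kap (q : ℤ) (kp q) := by
  by_cases h3 : q = 3
  · subst h3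
    have h1 : kp 3 = k3 := by
      funext α
      unfold kp
      rw [dif_neg (fun h => h.2 rfl), if_pos rfl]
    rw [h1]
    exact Kap.three
  · have _ : Fact q.Prime := ⟨hq⟩
    have h1 : kp q = kq q h3 := by
      funext α
      unfold kp
      rw [dif_pos ⟨hq, h3⟩]
    rw [h1]
    exact Kap.prime q h3

/-- Job KAP. -/
theorem kap (kmu : S_KMU) : S_KAP := by
  intro n
  induction n using induction_on_primes with
  | zero => exact fun h => absurd rfl h
  | one =>
    intro _
    rw [kn_one]
    simpa using Kap.one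
  | prime_mul q a hq ih =>
    intro hqa
    have ha : a ≠ 0 := right_ne_zero_of_mul hqa
    have h := (kap_prime hq).prod (ih ha)
    have h1 : kn (q * a) = fun α => kp q α * kn a α := by
      funext α
      rw [kmu q a α hq.ne_zero ha, kn_prime hq]
    rw [h1]
    simpa using h

/-- Job PER. -/
theorem per (kap : S_KAP) : S_PER := by
  intro n α β hn h1 h2 h3
  have hd : (n : ℤ) ∣ nr α - nr β := by
    rw [← int_dvd_int]
    obtain ⟨γ, hγ⟩ := h3
    have h5 : ((nr α - nr β : ℤ) : Ei) = (α - β) * star α + β * star (α - β) := by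
      rw [Int.cast_sub, ← mul_star, ← mul_star, star_sub]
      ring
    rw [h5, hγ, star_mul, star_intCast]
    refine ⟨9 * (γ * star α) + 9 * (β * star γ), ?_⟩
    push_cast
    ring
  obtain ⟨c, hc⟩ := hd
  have hα : nr α = nr β + (n : ℤ) * c := by linarith
  have hcop : IsCoprime (nr α) (n : ℤ) ↔ IsCoprime (nr β) (n : ℤ) := by
    rw [hα]
    exact IsCoprime.add_mul_left_left_iff
  unfold xi
  by_cases h : IsCoprime (nr α) (n : ℤ)
  · rw [if_pos h, if_pos (hcop.1 h), (kap n (by omega)).per α β h (hcop.1 h) h1 h2 h3]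
  · rw [if_neg h, if_neg (fun h' => h (hcop.2 h'))]

end Pool.Agent.Q214.CC
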