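import Pool.Agent.Q152.CC.Stm2

set_option autoImplicit false

/-!
# Job PVB (project CC of helper152): Polya-Vinogradov with smooth weights
-/

namespace Pool.Agent.Q214.CC

open Finset Pool.Agent.Y692.QS Pool.Agent.Q152.CC
open Pool.Agent.Q255.CU (fc m3)

theorem nr_uu (i j : ℤ) : nr (uu i j) = i ^ 2 + i * j + j ^ 2 := by
  unfold nr uu
  ring

theorem Gh_zero (ful : S_FUL) {A B : ℕ} (hA : 1 ≤ A) (hB : 1 ≤ B) (h : fc A ≠ fc B) :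
    Gh A B 0 0 = 0 := by
  have h1 := ful A B hA hB h 0 0
  unfold Gh G
  rw [← h1]
  refine sum_congr rfl fun x _ => sum_congr rfl fun y _ => ?_
  have h2 : ee (-(((0 : ℤ) : ℝ) * (x : ℝ) + ((0 : ℤ) : ℝ) * (y : ℝ)) / ((3 * A * B : ℕ) : ℝ)) = 1 := by
    simp [ee]
  rw [h2, mul_one, zero_add, zero_add]

theorem prod_le {T K : ℕ} (dir : S_DIR) (hT : 1 ≤ T) {i j : ℤ} (hi : 2 * |i| ≤ T) (hij : |j| ≤ |i|)
    (hi0 : i ≠ 0) :
    ‖DK T K i‖ ^ 2 * ‖DK T K j‖ ^ 2 ≤ 3 * (K : ℝ) ^ 2 * (T : ℝ) ^ 2 / (4 * (nr (uu i j) : ℝ)) := by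
  have h1 := (dir T K i hT).2 hi0 hi
  have h2 := (dir T K j hT).1
  have hia : (0 : ℝ) < ((|i| : ℤ) : ℝ) := by exact_mod_cast abs_pos.2 hi0
  have hn : (nr (uu i j) : ℝ) ≤ 3 * ((|i| : ℤ) : ℝ) ^ 2 := by
    have : nr (uu i j) ≤ 3 * |i| ^ 2 := by
      rw [nr_uu]
      have h3 : i * j ≤ |i| * |j| := by
        rw [← abs_mul]
        exact le_abs_self _
      have h4 : |i| * |j| ≤ |i| * |i| := mul_le_mul_of_nonneg_left hij (abs_nonneg _)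
      have h5 : i ^ 2 = |i| ^ 2 := (sq_abs i).symm
      have h6 : j ^ 2 = |j| ^ 2 := (sq_abs j).symm
      have h7 : |j| ^ 2 ≤ |i| ^ 2 := pow_le_pow_left₀ (abs_nonneg _) hij 2
      nlinarith
    exact_mod_cast this
  have hn0 : (0 : ℝ) < (nr (uu i j) : ℝ) := by
    have : 0 < nr (uu i j) := by
      rw [nr_uu]
      have h3 : 0 < i ^ 2 := by positivity
      nlinarith [sq_nonneg (i + 2 * j)]
    exact_mod_cast this
  have h3 : ‖DK T K i‖ ^ 2 ≤ ((T : ℝ) / (2 * ((|i| : ℤ) : ℝ))) ^ 2 :=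
    pow_le_pow_left₀ (norm_nonneg _) h1 2
  have h4 : ‖DK T K j‖ ^ 2 ≤ (K : ℝ) ^ 2 := pow_le_pow_left₀ (norm_nonneg _) h2 2
  calc ‖DK T K i‖ ^ 2 * ‖DK T K j‖ ^ 2
      ≤ ((T : ℝ) / (2 * ((|i| : ℤ) : ℝ))) ^ 2 * (K : ℝ) ^ 2 :=
        mul_le_mul h3 h4 (sq_nonneg _) (sq_nonneg _)
    _ = (K : ℝ) ^ 2 * (T : ℝ) ^ 2 / (4 * ((|i| : ℤ) : ℝ) ^ 2) := by
        rw [div_pow]
        ring
    _ ≤ 3 * (K : ℝ) ^ 2 * (T : ℝ) ^ 2 / (4 * (nr (uu i j) : ℝ)) := by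
        rw [div_le_div_iff₀ (by positivity) (by positivity)]
        have h5 : (0 : ℝ) ≤ (K : ℝ) ^ 2 * (T : ℝ) ^ 2 := by positivity
        nlinarith [mul_le_mul_of_nonneg_left hn h5]

theorem nr_symm (i j : ℤ) : nr (uu i j) = nr (uu j i) := by
  rw [nr_uu, nr_uu]
  ring

theorem prod_le' {T K : ℕ} (dir : S_DIR) (hT : 1 ≤ T) {i j : ℤ} (hi : 2 * |i| ≤ T) (hj : 2 * |j| ≤ T)
    (h0 : (i, j) ≠ (0, 0)) :
    ‖DK T K i‖ ^ 2 * ‖DK T K j‖ ^ 2 ≤ 3 * (K : ℝ) ^ 2 * (T : ℝ) ^ 2 / (4 * (nr (uu i j) : ℝ)) := by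
  rcases le_total |j| |i| with h | h
  · refine prod_le dir hT hi h ?_
    rintro rfl
    rw [abs_zero, abs_nonpos_iff] at h
    exact h0 (by rw [h])
  · rw [mul_comm, nr_symm]
    refine prod_le dir hT hj h ?_
    rintro rfl
    rw [abs_zero, abs_nonpos_iff] at h
    exact h0 (by rw [h])

/-- Job PVB. -/
theorem pvb (inv : S_INV) (gau : S_GAU) (dir : S_DIR) (sm : S_SUM) (ful : S_FUL) : S_PVB := by
  intro η hη
  obtain ⟨C, hC, hs⟩ := sm η hη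
  refine ⟨9 / 4 * C * 3 ^ (1 + η), by positivity, fun A B K hA hB hAB => ?_⟩
  rw [inv A B K hA hB]
  obtain ⟨T, hT⟩ : ∃ T, T = 3 * A * B := ⟨_, rfl⟩
  have hAB0 : 1 ≤ A * B := Nat.mul_pos hA hB
  have hT1 : 1 ≤ T := by
    rw [hT, mul_assoc]
    omega
  have hTR : (0 : ℝ) < T := by exact_mod_cast hT1
  rw [← hT]
  set I : Finset ℤ := Ico (-((T / 2 : ℕ) : ℤ)) ((T : ℤ) - (T / 2 : ℕ)) with hI
  have hmem : ∀ i ∈ I, 2 * |i| ≤ T := by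
    intro i hi
    rw [hI, mem_Ico] at hi
    rcases abs_cases i with ⟨h, _⟩ | ⟨h, _⟩ <;> rw [h] <;> omega
  have hI2 : I ⊆ Icc (-(T : ℤ)) T := by
    intro i hi
    rw [hI, mem_Ico] at hi
    rw [mem_Icc]
    omega
  have h1 : ‖∑ i ∈ I, ∑ j ∈ I, Gh A B i j *
      ((‖DK T K i‖ ^ 2 * ‖DK T K j‖ ^ 2 : ℝ) : ℂ)‖ ≤
      9 / 4 * (K : ℝ) ^ 2 * (T : ℝ) ^ 3 * (C * (T : ℝ) ^ η) := by
    rw [← sum_product' I I (fun i j => Gh A B i j * ((‖DK T K i‖ ^ 2 * ‖DK T K j‖ ^ 2 : ℝ) : ℂ))]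
    have hterm : ∀ t ∈ (I ×ˢ I).erase (0, 0),
        ‖Gh A B t.1 t.2 * ((‖DK T K t.1‖ ^ 2 * ‖DK T K t.2‖ ^ 2 : ℝ) : ℂ)‖ ≤
        9 / 4 * (K : ℝ) ^ 2 * (T : ℝ) ^ 3 * (Real.sqrt (an T t.1 t.2) / (nr (uu t.1 t.2) : ℝ)) := by
      intro t ht
      rw [mem_erase, mem_product] at ht
      obtain ⟨ht0, ht1, ht2⟩ := ht
      have hn0 : (0 : ℝ) < (nr (uu t.1 t.2) : ℝ) := by
        have h3 : 0 ≤ nr (uu t.1 t.2) := nr_nonneg _
        have h4 : nr (uu t.1 t.2) ≠ 0 := by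
          intro h5
          rw [nr_uu] at h5
          have h6 : t.2 = 0 := by
            have : t.2 ^ 2 ≤ 0 := by nlinarith [sq_nonneg (2 * t.1 + t.2)]
            exact pow_eq_zero_iff (two_ne_zero) |>.1 (le_antisymm this (sq_nonneg _))
          rw [h6] at h5
          have h7 : t.1 = 0 := by
            have : t.1 ^ 2 = 0 := by linarith
            exact pow_eq_zero_iff (two_ne_zero) |>.1 this
          exact ht0 (Prod.ext h7 h6)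
        have : 0 < nr (uu t.1 t.2) := lt_of_le_of_ne h3 (Ne.symm h4)
        exact_mod_cast this
      have h2 := prod_le' (K := K) dir hT1 (hmem _ ht1) (hmem _ ht2) (by simpa using ht0)
      have h3 : ‖Gh A B t.1 t.2‖ ≤ 3 * T * Real.sqrt (an T t.1 t.2) := by
        have h4 := gau A B hA hB t.1 t.2
        rw [← hT] at h4
        have h5 : (3 * T * Real.sqrt (an T t.1 t.2)) ^ 2 = 9 * (T : ℝ) ^ 2 * an T t.1 t.2 := by
          rw [mul_pow, Real.sq_sqrt (Nat.cast_nonneg _)]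
          ring
        rw [← h5] at h4
        exact le_of_sq_le_sq h4 (by positivity)
      rw [norm_mul, Complex.norm_real, Real.norm_of_nonneg (by positivity)]
      calc ‖Gh A B t.1 t.2‖ * (‖DK T K t.1‖ ^ 2 * ‖DK T K t.2‖ ^ 2)
          ≤ (3 * T * Real.sqrt (an T t.1 t.2)) *
            (3 * (K : ℝ) ^ 2 * (T : ℝ) ^ 2 / (4 * (nr (uu t.1 t.2) : ℝ))) :=
            mul_le_mul h3 h2 (by positivity) (by positivity)
        _ = 9 / 4 * (K : ℝ) ^ 2 * (T : ℝ) ^ 3 *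
            (Real.sqrt (an T t.1 t.2) / (nr (uu t.1 t.2) : ℝ)) := by
            field_simp
            ring
    have h0 : ∑ t ∈ I ×ˢ I, Gh A B t.1 t.2 * ((‖DK T K t.1‖ ^ 2 * ‖DK T K t.2‖ ^ 2 : ℝ) : ℂ) =
        ∑ t ∈ (I ×ˢ I).erase (0, 0),
          Gh A B t.1 t.2 * ((‖DK T K t.1‖ ^ 2 * ‖DK T K t.2‖ ^ 2 : ℝ) : ℂ) := by
      symm
      refine sum_erase _ ?_
      show Gh A B 0 0 * _ = 0
      rw [Gh_zero ful hA hB hAB, zero_mul]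
    rw [h0]
    refine (norm_sum_le _ _).trans ((sum_le_sum hterm).trans ?_)
    rw [← mul_sum]
    refine mul_le_mul_of_nonneg_left ?_ (by positivity)
    refine le_trans ?_ (hs T hT1)
    refine sum_le_sum_of_subset_of_nonneg (erase_subset_erase _ (product_subset_product hI2 hI2)) ?_
    intro t _ _
    have : (0 : ℝ) ≤ (nr (uu t.1 t.2) : ℝ) := by exact_mod_cast nr_nonneg (uu t.1 t.2)
    positivity
  rw [norm_mul, norm_div, norm_one, norm_pow, Complex.norm_natCast]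
  calc 1 / (T : ℝ) ^ 2 * ‖∑ i ∈ I, ∑ j ∈ I, Gh A B i j *
      ((‖DK T K i‖ ^ 2 * ‖DK T K j‖ ^ 2 : ℝ) : ℂ)‖
      ≤ 1 / (T : ℝ) ^ 2 * (9 / 4 * (K : ℝ) ^ 2 * (T : ℝ) ^ 3 * (C * (T : ℝ) ^ η)) :=
        mul_le_mul_of_nonneg_left h1 (by positivity)
    _ = 9 / 4 * C * (K : ℝ) ^ 2 * ((T : ℝ) * (T : ℝ) ^ η) := by
        field_simp
    _ = 9 / 4 * C * (K : ℝ) ^ 2 * (T : ℝ) ^ (1 + η) := by
        rw [Real.rpow_add hTR, Real.rpow_one]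
    _ = 9 / 4 * C * 3 ^ (1 + η) * (K : ℝ) ^ 2 * ((A : ℝ) * B) ^ (1 + η) := by
        have h2 : (T : ℝ) = 3 * ((A : ℝ) * B) := by
          rw [hT]
          push_cast
          ring
        rw [h2, Real.mul_rpow (by norm_num) (by positivity)]
        ring

end Pool.Agent.Q214.CC
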