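import Pool.Agent.Q152.CC.Stm2

set_option autoImplicit false

/-!
# Job INV (project CC of helper152): double Fourier inversion
-/

namespace Pool.Agent.Q214.CC

open Finset Pool.Agent.Y692.QS Pool.Agent.Q152.CC

theorem ee_add (s t : ℝ) : ee (s + t) = ee s * ee t := by
  unfold ee
  rw [← Complex.exp_add]
  congr 1
  push_cast
  ring

theorem ee_zero : ee 0 = 1 := by
  unfold ee
  simp

theorem ee_int (n : ℤ) : ee n = 1 := by
  unfold ee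
  rw [Complex.exp_eq_one_iff]
  exact ⟨n, by push_cast; ring⟩

theorem star_ee (t : ℝ) : star (ee t) = ee (-t) := by
  unfold ee
  rw [Complex.star_def, ← Complex.exp_conj]
  congr 1
  simp only [map_mul, Complex.conj_ofReal, Complex.conj_I, map_ofNat]
  push_cast
  ring

theorem norm_ee (t : ℝ) : ‖ee t‖ = 1 := by
  unfold ee
  rw [Complex.norm_exp]
  simp

theorem ee_pow (t : ℝ) (k : ℕ) : ee t ^ k = ee (k * t) := by
  unfold ee
  rw [← Complex.exp_nat_mul]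
  congr 1
  push_cast
  ring

theorem ee_eq_one {T : ℕ} (hT : 1 ≤ T) {d : ℤ} (h : ee ((d : ℝ) / T) = 1) : (T : ℤ) ∣ d := by
  unfold ee at h
  rw [Complex.exp_eq_one_iff] at h
  obtain ⟨n, hn⟩ := h
  have hT0 : (T : ℂ) ≠ 0 := by exact_mod_cast (by omega : T ≠ 0)
  have h2 : (2 * Real.pi * Complex.I : ℂ) ≠ 0 := Complex.two_pi_I_ne_zero
  have h3 : ((d : ℂ) / T) * (2 * Real.pi * Complex.I) = n * (2 * Real.pi * Complex.I) := by
    rw [← hn]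
    push_cast
    ring
  have h4 := mul_right_cancel₀ h2 h3
  rw [div_eq_iff hT0] at h4
  refine ⟨n, ?_⟩
  have : (d : ℂ) = ((T * n : ℤ) : ℂ) := by
    rw [h4]
    push_cast
    ring
  exact_mod_cast this

/-- orthogonality -/
theorem orth {T : ℕ} (hT : 1 ≤ T) (a d : ℤ) :
    ∑ i ∈ Ico a (a + T), ee ((i : ℝ) * d / T) = if (T : ℤ) ∣ d then (T : ℂ) else 0 := by
  have h1 : ∑ i ∈ Ico a (a + T), ee ((i : ℝ) * d / T) =
      ∑ k ∈ range T, ee ((a : ℝ) * d / T) * ee ((d : ℝ) / T) ^ k := by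
    refine Finset.sum_nbij' (fun i : ℤ => (i - a).toNat) (fun k : ℕ => a + k) ?_ ?_ ?_ ?_ ?_
    · intro i hi
      rw [mem_Ico] at hi
      rw [mem_range]
      omega
    · intro k hk
      rw [mem_range] at hk
      rw [mem_Ico]
      omega
    · intro i hi
      rw [mem_Ico] at hi
      show a + ((i - a).toNat : ℤ) = i
      omega
    · intro k hk
      show (a + (k : ℤ) - a).toNat = k
      omega
    · intro i hi
      rw [mem_Ico] at hi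
      rw [ee_pow, ← ee_add]
      congr 1
      have h2 : (((i - a).toNat : ℕ) : ℝ) = (i : ℝ) - a := by
        have : (((i - a).toNat : ℕ) : ℤ) = i - a := Int.toNat_of_nonneg (by omega)
        exact_mod_cast this
      rw [h2]
      ring
  rw [h1, ← mul_sum]
  by_cases h : (T : ℤ) ∣ d
  · rw [if_pos h]
    obtain ⟨c, rfl⟩ := h
    have hT0 : (T : ℝ) ≠ 0 := by exact_mod_cast (by omega : T ≠ 0)
    have h2 : ee ((a : ℝ) * ((T * c : ℤ) : ℝ) / T) = 1 := by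
      have : (a : ℝ) * ((T * c : ℤ) : ℝ) / T = ((a * c : ℤ) : ℝ) := by
        push_cast
        field_simp
      rw [this, ee_int]
    have h3 : ee (((T * c : ℤ) : ℝ) / T) = 1 := by
      have : ((T * c : ℤ) : ℝ) / T = (c : ℝ) := by
        push_cast
        field_simp
      rw [this, ee_int]
    rw [h2, h3]
    simp
  · rw [if_neg h]
    have h2 : ee ((d : ℝ) / T) ≠ 1 := fun h' => h (ee_eq_one hT h')
    rw [geom_sum_eq h2, ee_pow]
    have hT0 : (T : ℝ) ≠ 0 := by exact_mod_cast (by omega : T ≠ 0)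
    have : (T : ℝ) * ((d : ℝ) / T) = (d : ℝ) := by field_simp
    rw [this, ee_int]
    simp

theorem inv1 {T : ℕ} (hT : 1 ≤ T) (f : ℤ → ℂ) (hf : ∀ x y : ℤ, (T : ℤ) ∣ x - y → f x = f y)
    (a x : ℤ) :
    ∑ i ∈ Ico a (a + T), ∑ x' ∈ range T, f x' * ee ((i : ℝ) * ((x - x' : ℤ) : ℝ) / T) = T * f x := by
  rw [sum_comm]
  have h1 : ∀ x' ∈ range T, ∑ i ∈ Ico a (a + T), f x' * ee ((i : ℝ) * ((x - x' : ℤ) : ℝ) / T) =
      if x' = (x % T).toNat then T * f x else 0 := by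
    intro x' hx'
    rw [mem_range] at hx'
    rw [← mul_sum, orth hT]
    have hT' : (0 : ℤ) < T := by omega
    have h2 := Int.emod_nonneg x hT'.ne'
    have h3 := Int.emod_lt_of_pos x hT'
    have h4 : (T : ℤ) ∣ x - x' ↔ x' = (x % T).toNat := by
      constructor
      · intro h
        have h5 : x % T = (x' : ℤ) % T :=
          Int.emod_eq_emod_iff_emod_sub_eq_zero.2 (Int.emod_eq_zero_of_dvd h)
        rw [Int.emod_eq_of_lt (by omega) (by omega : (x' : ℤ) < T)] at h5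
        omega
      · intro h
        have h5 : (x' : ℤ) = x % T := by omega
        rw [h5]
        exact Int.dvd_self_sub_emod
    by_cases h : (T : ℤ) ∣ x - x'
    · rw [if_pos h, if_pos (h4.1 h), hf x x' h, mul_comm]
    · rw [if_neg h, if_neg (fun h' => h (h4.2 h')), mul_zero]
  rw [sum_congr rfl h1, sum_ite_eq']
  rw [if_pos]
  rw [mem_range]
  have hT' : (0 : ℤ) < T := by omega
  have h2 := Int.emod_nonneg x hT'.ne'
  have h3 := Int.emod_lt_of_pos x hT'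
  omega

theorem inv2 {T : ℕ} (hT : 1 ≤ T) (g : ℤ → ℤ → ℂ)
    (hg1 : ∀ x x' y : ℤ, (T : ℤ) ∣ x - x' → g x y = g x' y)
    (hg2 : ∀ x y y' : ℤ, (T : ℤ) ∣ y - y' → g x y = g x y')
    (a x y : ℤ) :
    ∑ i ∈ Ico a (a + T), ∑ j ∈ Ico a (a + T),
      (∑ x' ∈ range T, ∑ y' ∈ range T, g x' y' * ee (-(i * x' + j * y') / T)) *
        (ee ((i : ℝ) * x / T) * ee ((j : ℝ) * y / T)) = (T : ℂ) ^ 2 * g x y := by
  have h1 : ∀ i ∈ Ico a (a + (T : ℤ)), ∑ j ∈ Ico a (a + T),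
      (∑ x' ∈ range T, ∑ y' ∈ range T, g x' y' * ee (-(i * x' + j * y') / T)) *
        (ee ((i : ℝ) * x / T) * ee ((j : ℝ) * y / T)) =
      ∑ x' ∈ range T, (T * g x' y) * ee ((i : ℝ) * ((x - x' : ℤ) : ℝ) / T) := by
    intro i _
    have h2 : ∀ x' : ℤ, (T * g x' y) = ∑ j ∈ Ico a (a + T), ∑ y' ∈ range T,
        g x' y' * ee ((j : ℝ) * ((y - y' : ℤ) : ℝ) / T) := fun x' =>
      (inv1 hT (fun y => g x' y) (fun y y' h => hg2 x' y y' h) a y).symm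
    simp_rw [h2]
    have h3 : ∀ x' ∈ range T, (∑ j ∈ Ico a (a + T), ∑ y' ∈ range T,
        g x' y' * ee ((j : ℝ) * ((y - y' : ℤ) : ℝ) / T)) * ee ((i : ℝ) * ((x - x' : ℤ) : ℝ) / T) =
        ∑ j ∈ Ico a (a + T), ∑ y' ∈ range T, g x' y' * ee ((j : ℝ) * ((y - y' : ℤ) : ℝ) / T) *
          ee ((i : ℝ) * ((x - x' : ℤ) : ℝ) / T) := by
      intro x' _
      rw [sum_mul]
      exact sum_congr rfl fun j _ => sum_mul _ _ _
    rw [sum_congr rfl h3, sum_comm]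
    refine sum_congr rfl fun j _ => ?_
    rw [sum_mul]
    refine sum_congr rfl fun x' _ => ?_
    rw [sum_mul]
    refine sum_congr rfl fun y' _ => ?_
    rw [mul_assoc, mul_assoc, ← ee_add, ← ee_add, ← ee_add]
    congr 2
    push_cast
    ring
  rw [sum_congr rfl h1]
  have h4 := inv1 hT (fun x => T * g x y) (fun x x' h => by rw [hg1 x x' y h]) a x
  rw [h4]
  ring

theorem DK_sq (T K : ℕ) (i : ℤ) :
    ((‖DK T K i‖ ^ 2 : ℝ) : ℂ) = ∑ s ∈ range K, ∑ s' ∈ range K, ee ((i : ℝ) * ((s - s' : ℤ) : ℝ) / T) := by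
  have h : ((‖DK T K i‖ ^ 2 : ℝ) : ℂ) = DK T K i * star (DK T K i) := by
    rw [Complex.star_def, Complex.mul_conj, Complex.normSq_eq_norm_sq]
  rw [h]
  unfold DK
  rw [star_sum, sum_mul_sum]
  refine sum_congr rfl fun s _ => sum_congr rfl fun s' _ => ?_
  rw [star_ee, ← ee_add]
  congr 1
  push_cast
  ring

theorem al_sub (a b : ℤ) : (3 : Ei) ∣ al a b - 1 := by
  have h : ((3 : ℤ) : Ei) ∣ al a b - 1 := by
    refine int_dvd.2 ⟨⟨a, ?_⟩, ⟨b, ?_⟩⟩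
    · show 1 + 3 * a - 1 = 3 * a
      ring
    · show 3 * b - 0 = 3 * b
      ring
  exact_mod_cast h

theorem al_dvd {n : ℕ} {x x' y y' : ℤ} (h1 : (3 * n : ℤ) ∣ x - x') (h2 : (3 * n : ℤ) ∣ y - y') :
    ((9 * (n : ℤ) : ℤ) : Ei) ∣ al x y - al x' y' := by
  obtain ⟨c, hc⟩ := h1
  obtain ⟨d, hd⟩ := h2
  refine int_dvd.2 ⟨⟨c, ?_⟩, ⟨d, ?_⟩⟩
  · show 1 + 3 * x - (1 + 3 * x') = 9 * n * c
    linear_combination 3 * hc
  · show 3 * y - 3 * y' = 9 * n * d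
    linear_combination 3 * hd

theorem G_per (per : S_PER) {A B : ℕ} (hA : 1 ≤ A) (hB : 1 ≤ B) {x x' y y' : ℤ}
    (h1 : ((3 * A * B : ℕ) : ℤ) ∣ x - x') (h2 : ((3 * A * B : ℕ) : ℤ) ∣ y - y') :
    G A B x y = G A B x' y' := by
  have hA1 : (3 * A : ℤ) ∣ ((3 * A * B : ℕ) : ℤ) := ⟨B, by push_cast; ring⟩
  have hB1 : (3 * B : ℤ) ∣ ((3 * A * B : ℕ) : ℤ) := ⟨A, by push_cast; ring⟩
  unfold G
  rw [per A (al x y) (al x' y') hA (al_sub _ _) (al_sub _ _) (al_dvd (hA1.trans h1) (hA1.trans h2)),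
    per B (al x y) (al x' y') hB (al_sub _ _) (al_sub _ _) (al_dvd (hB1.trans h1) (hB1.trans h2))]

theorem sw (I : Finset ℤ) (R : Finset ℕ) (F : ℤ → ℕ → ℕ → ℕ → ℕ → ℂ) :
    ∑ i ∈ I, ∑ s ∈ R, ∑ s' ∈ R, ∑ t ∈ R, ∑ t' ∈ R, F i s s' t t' =
      ∑ s ∈ R, ∑ s' ∈ R, ∑ t ∈ R, ∑ t' ∈ R, ∑ i ∈ I, F i s s' t t' := by
  rw [sum_comm]
  refine sum_congr rfl fun s _ => ?_
  rw [sum_comm]
  refine sum_congr rfl fun s' _ => ?_
  rw [sum_comm]
  refine sum_congr rfl fun t _ => ?_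
  rw [sum_comm]

theorem sw2 (I : Finset ℤ) (R : Finset ℕ) (F : ℤ → ℤ → ℕ → ℕ → ℕ → ℕ → ℂ) :
    ∑ i ∈ I, ∑ j ∈ I, ∑ s ∈ R, ∑ s' ∈ R, ∑ t ∈ R, ∑ t' ∈ R, F i j s s' t t' =
      ∑ s ∈ R, ∑ s' ∈ R, ∑ t ∈ R, ∑ t' ∈ R, ∑ i ∈ I, ∑ j ∈ I, F i j s s' t t' := by
  rw [sum_congr rfl fun i _ => sw I R (F i)]
  exact sw I R fun i s s' t t' => ∑ j ∈ I, F i j s s' t t'

/-- Job INV. -/
theorem inv (per : S_PER) : S_INV := by
  intro A B K hA hB
  have hT : 1 ≤ 3 * A * B := by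
    have := Nat.mul_pos hA hB
    rw [mul_assoc]
    omega
  have hT0 : ((3 * A * B : ℕ) : ℂ) ≠ 0 := by exact_mod_cast (by omega : 3 * A * B ≠ 0)
  have hI : Ico (-((3 * A * B / 2 : ℕ) : ℤ)) (((3 * A * B : ℕ) : ℤ) - (3 * A * B / 2 : ℕ)) =
      Ico (-((3 * A * B / 2 : ℕ) : ℤ)) (-((3 * A * B / 2 : ℕ) : ℤ) + (3 * A * B : ℕ)) := by
    congr 1
    ring
  rw [hI]
  have h2 : ∀ x y : ℤ, G A B x y = (1 / ((3 * A * B : ℕ) : ℂ) ^ 2) *
      ∑ i ∈ Ico (-((3 * A * B / 2 : ℕ) : ℤ)) (-((3 * A * B / 2 : ℕ) : ℤ) + (3 * A * B : ℕ)),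
      ∑ j ∈ Ico (-((3 * A * B / 2 : ℕ) : ℤ)) (-((3 * A * B / 2 : ℕ) : ℤ) + (3 * A * B : ℕ)),
        Gh A B i j * (ee ((i : ℝ) * x / (3 * A * B : ℕ)) * ee ((j : ℝ) * y / (3 * A * B : ℕ))) := by
    intro x y
    have h3 := inv2 hT (G A B) (fun x x' y h => G_per per hA hB h (by simp))
      (fun x y y' h => G_per per hA hB (by simp) h) (-((3 * A * B / 2 : ℕ) : ℤ)) x y
    have h4 : ∀ i j : ℤ, Gh A B i j = ∑ x' ∈ range (3 * A * B), ∑ y' ∈ range (3 * A * B),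
        G A B x' y' * ee (-(i * x' + j * y') / (3 * A * B : ℕ)) := fun _ _ => rfl
    simp_rw [h4]
    rw [h3]
    field_simp
  have h5 : ∀ i j : ℤ, Gh A B i j *
      ((‖DK (3 * A * B) K i‖ ^ 2 * ‖DK (3 * A * B) K j‖ ^ 2 : ℝ) : ℂ) =
      ∑ s ∈ range K, ∑ s' ∈ range K, ∑ t ∈ range K, ∑ t' ∈ range K,
        Gh A B i j * (ee ((i : ℝ) * ((s - s' : ℤ) : ℝ) / (3 * A * B : ℕ)) *
          ee ((j : ℝ) * ((t - t' : ℤ) : ℝ) / (3 * A * B : ℕ))) := by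
    intro i j
    rw [Complex.ofReal_mul, DK_sq, DK_sq, sum_mul, mul_sum]
    refine sum_congr rfl fun s _ => ?_
    rw [sum_mul, mul_sum]
    refine sum_congr rfl fun s' _ => ?_
    rw [mul_sum, mul_sum]
    refine sum_congr rfl fun t _ => ?_
    rw [mul_sum, mul_sum]
  simp_rw [h5]
  rw [sw2, mul_sum]
  refine sum_congr rfl fun s _ => ?_
  rw [mul_sum]
  refine sum_congr rfl fun s' _ => ?_
  rw [mul_sum]
  refine sum_congr rfl fun t _ => ?_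
  rw [mul_sum]
  refine sum_congr rfl fun t' _ => ?_
  exact h2 _ _

end Pool.Agent.Q214.CC
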